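import Pool.Agent.Helper37.SU.Stmts

set_option autoImplicit false

/-!
Module ENN of the project SU (MP_aa31b4_an): near entries.
-/

namespace Pool.Agent.Helper37.SU

open MeasureTheory Finset
open scoped ENNReal Classical

/-- ENN: near entries. -/
theorem st_ENN (h1 : ST_NQ) (h2 : ST_PK) (h3 : ST_HKI) : ST_ENN := by
  intro b d hb
  obtain ⟨C₁, hC₁, hpk⟩ := h2 b hb
  obtain ⟨C₂, hC₂, hnq⟩ := h1 b d (by omega)
  have hb1 : 1 ≤ b := by omega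
  have hbp : (0 : ℝ) < b := by exact_mod_cast hb1
  have hbc : (b : ℂ) ≠ 0 := by
    have : b ≠ 0 := by omega
    exact_mod_cast this
  have hCc : (C₁ : ℂ) ≠ 0 := by exact_mod_cast hC₁.ne'
  refine ⟨C₁ ^ d * C₂, by positivity, fun m x B B' hx hm => ?_⟩
  have hc := fun i => hpk (B.1 i) (B'.1 i) (pt b (B.1 i) (B.2 i)) (pt b (B'.1 i) (B'.2 i))
  choose c hc using hc
  set kk : Fin d → UnitAddCircle → ℂ := fun i t => ((b : ℂ) ^ (B.1 i))⁻¹ *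
    (dk b (B.1 i) (pt b (B.1 i) (B.2 i) - t) * ik b (B'.1 i) (t - pt b (B'.1 i) (B'.2 i))) with hkk
  set G : Fin d → UnitAddCircle → ℂ := fun i t => (C₁ : ℂ)⁻¹ * kk i t with hG
  have hn : ‖(C₁ : ℂ)⁻¹‖ = C₁⁻¹ := by
    rw [norm_inv, Complex.norm_real, Real.norm_of_nonneg hC₁.le]
  have hG1 : ∀ i t, ‖G i t‖ ≤ ev b (max (B.1 i) (B'.1 i)) (t - c i) := by
    intro i t
    rw [hG]
    simp only
    rw [norm_mul, hn]
    calc C₁⁻¹ * ‖kk i t‖ ≤ C₁⁻¹ * (C₁ * ev b (max (B.1 i) (B'.1 i)) (t - c i)) :=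
          mul_le_mul_of_nonneg_left (hc i t t).1 (inv_nonneg.2 hC₁.le)
      _ = ev b (max (B.1 i) (B'.1 i)) (t - c i) := by
          field_simp
  have hG2 : ∀ i t t', ‖G i t - G i t'‖ ≤ (b : ℝ) ^ (max (B.1 i) (B'.1 i)) * ‖t - t'‖ *
      (ev b (max (B.1 i) (B'.1 i)) (t - c i) + ev b (max (B.1 i) (B'.1 i)) (t' - c i)) := by
    intro i t t'
    rw [hG]
    simp only
    rw [← mul_sub, norm_mul, hn]
    calc C₁⁻¹ * ‖kk i t - kk i t'‖ ≤ C₁⁻¹ * (C₁ * ((b : ℝ) ^ (max (B.1 i) (B'.1 i)) * ‖t - t'‖ *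
      (ev b (max (B.1 i) (B'.1 i)) (t - c i) + ev b (max (B.1 i) (B'.1 i)) (t' - c i)))) :=
          mul_le_mul_of_nonneg_left (hc i t t').2 (inv_nonneg.2 hC₁.le)
      _ = (b : ℝ) ^ (max (B.1 i) (B'.1 i)) * ‖t - t'‖ *
      (ev b (max (B.1 i) (B'.1 i)) (t - c i) + ev b (max (B.1 i) (B'.1 i)) (t' - c i)) := by
          field_simp
  have hq := hnq m x (fun i => max (B.1 i) (B'.1 i)) c G hx hm hG1 hG2
  have hI : ∀ i, hk b (B.1 i) (B'.1 i) (pt b (B.1 i) (B.2 i) - pt b (B'.1 i) (B'.2 i))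
      = (C₁ : ℂ) * (b : ℂ) ^ (B.1 i) * ∫ t, G i t ∂haar1 := by
    intro i
    rw [hG, hkk]
    simp only
    rw [integral_const_mul, integral_const_mul, h3 _ _ _ _ _ hb]
    have : (b : ℂ) ^ (B.1 i) ≠ 0 := pow_ne_zero _ hbc
    field_simp
  have hP : ∀ p, DK b B.1 (ptv b B - x p) * Phi b B' (x p)
      = (C₁ : ℂ) ^ d * (b : ℂ) ^ (∑ i, B.1 i) * ∏ i, G i (x p i) := by
    intro p
    unfold DK Phi ptv
    rw [← Finset.prod_mul_distrib, ← Finset.prod_pow_eq_pow_sum]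
    have e : (C₁ : ℂ) ^ d = ∏ _i : Fin d, (C₁ : ℂ) := by
      rw [Finset.prod_const, card_univ, Fintype.card_fin]
    rw [e, ← Finset.prod_mul_distrib, ← Finset.prod_mul_distrib]
    refine Finset.prod_congr rfl fun i _ => ?_
    rw [hG, hkk]
    simp only [Pi.sub_apply]
    have : (b : ℂ) ^ (B.1 i) ≠ 0 := pow_ne_zero _ hbc
    field_simp
  have hH : Hm b B B' = (C₁ : ℂ) ^ d * (b : ℂ) ^ (∑ i, B.1 i) * ∏ i, ∫ t, G i t ∂haar1 := by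
    unfold Hm
    rw [← Finset.prod_pow_eq_pow_sum]
    have e : (C₁ : ℂ) ^ d = ∏ _i : Fin d, (C₁ : ℂ) := by
      rw [Finset.prod_const, card_univ, Fintype.card_fin]
    rw [e, ← Finset.prod_mul_distrib, ← Finset.prod_mul_distrib]
    exact Finset.prod_congr rfl fun i _ => hI i
  have hE : Ent b m x B B' = ((b : ℂ) ^ m)⁻¹ * ((C₁ : ℂ) ^ d * (b : ℂ) ^ (∑ i, B.1 i)) *
      ((∑ p, ∏ i, G i (x p i)) - (b : ℂ) ^ m * ∏ i, ∫ t, G i t ∂haar1) := by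
    unfold Ent
    rw [hH, Finset.sum_congr rfl fun p _ => hP p, ← Finset.mul_sum]
    have : (b : ℂ) ^ m ≠ 0 := pow_ne_zero _ hbc
    field_simp
  rw [hE, norm_mul]
  have hn2 : ‖((b : ℂ) ^ m)⁻¹ * ((C₁ : ℂ) ^ d * (b : ℂ) ^ (∑ i, B.1 i))‖
      = C₁ ^ d * ((b : ℝ) ^ (∑ i, B.1 i) / (b : ℝ) ^ m) := by
    rw [norm_mul, norm_mul, norm_inv, norm_pow, norm_pow, norm_pow, Complex.norm_real,
      Real.norm_of_nonneg hC₁.le, Complex.norm_natCast]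
    field_simp
  rw [hn2]
  calc C₁ ^ d * ((b : ℝ) ^ (∑ i, B.1 i) / (b : ℝ) ^ m) *
        ‖(∑ p, ∏ i, G i (x p i)) - (b : ℂ) ^ m * ∏ i, ∫ t, G i t ∂haar1‖
      ≤ C₁ ^ d * ((b : ℝ) ^ (∑ i, B.1 i) / (b : ℝ) ^ m) *
        (C₂ * (1 + ((m - ∑ i, max (B.1 i) (B'.1 i) : ℕ) : ℝ)) ^ d) :=
        mul_le_mul_of_nonneg_left hq (by positivity)
    _ = _ := by ring

end Pool.Agent.Helper37.SU
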