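import Pool.Agent.Helper37.SU.Stmts

set_option autoImplicit false

/-!
Module HB of the project SU (MP_aa31b4_an): norms of the level blocks of the exact coefficients.
-/

namespace Pool.Agent.Helper37.SU

open MeasureTheory Finset
open scoped ENNReal Classical

theorem HB_ev_nonneg (b j : ℕ) (t : UnitAddCircle) : 0 ≤ ev b j t := by
  unfold ev
  positivity

theorem HB_ev_neg (b j : ℕ) (t : UnitAddCircle) : ev b j (-t) = ev b j t := by
  unfold ev
  rw [norm_neg]

theorem HB_ev_anti {b i i' : ℕ} (hb : 1 ≤ b) (h : i' ≤ i) (t : UnitAddCircle) :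
    ev b i t ≤ ev b i' t := by
  unfold ev
  have h1 : (b : ℝ) ^ i' ≤ (b : ℝ) ^ i := pow_le_pow_right₀ (by exact_mod_cast hb) h
  have h2 : (b : ℝ) ^ i' * ‖t‖ ≤ (b : ℝ) ^ i * ‖t‖ := mul_le_mul_of_nonneg_right h1 (norm_nonneg _)
  have h3 : 0 ≤ (b : ℝ) ^ i' * ‖t‖ := by positivity
  apply inv_anti₀
  · positivity
  · apply pow_le_pow_left₀ <;> linarith

theorem HB_ev1 {b : ℕ} {C : ℝ}
    (h : ∀ (s : Fin 1 → ℕ) (t : TT 1), ∑ a ∈ gr b s, EV b (s, a) t ≤ C)
    (j : ℕ) (t : UnitAddCircle) : ∑ a ∈ range (b ^ j), ev b j (t - pt b j a) ≤ C := by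
  have h1 := h (fun _ => j) (fun _ => t)
  unfold gr EV at h1
  have h2 := Finset.prod_univ_sum (fun _ : Fin 1 => range (b ^ j))
    (fun (_ : Fin 1) (a : ℕ) => ev b j (t - pt b j a))
  rw [← h2] at h1
  simpa using h1

theorem HB_range {M : Type*} [AddCommMonoid M] (m n : ℕ) (hm : 0 < m) (f : ℕ → M) :
    ∑ a ∈ range (m * n), f a = ∑ a₀ ∈ range m, ∑ a₁ ∈ range n, f (a₀ + m * a₁) := by
  rw [← Finset.sum_product']
  symm
  refine Finset.sum_nbij' (fun p => p.1 + m * p.2) (fun a => (a % m, a / m)) ?_ ?_ ?_ ?_ ?_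
  · intro p hp
    simp only [mem_product, mem_range] at hp ⊢
    calc p.1 + m * p.2 < m + m * p.2 := by omega
      _ = m * (p.2 + 1) := by ring
      _ ≤ m * n := Nat.mul_le_mul_left _ hp.2
  · intro a ha
    simp only [mem_product, mem_range] at ha ⊢
    exact ⟨Nat.mod_lt _ hm, Nat.div_lt_of_lt_mul ha⟩
  · intro p hp
    simp only [mem_product, mem_range] at hp
    refine Prod.ext ?_ ?_
    · show (p.1 + m * p.2) % m = p.1
      rw [Nat.add_mul_mod_self_left, Nat.mod_eq_of_lt hp.1]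
    · show (p.1 + m * p.2) / m = p.2
      rw [Nat.add_mul_div_left _ _ hm, Nat.div_eq_of_lt hp.1, zero_add]
  · intro a _
    exact Nat.mod_add_div a m
  · intro p _
    rfl

theorem HB_pt {b i i' : ℕ} (hb : 1 ≤ b) (h : i ≤ i') (a₀ a₁ : ℕ) :
    pt b i' (a₀ + b ^ (i' - i) * a₁) = pt b i' a₀ + pt b i a₁ := by
  unfold pt
  rw [← AddCircle.coe_add]
  congr 1
  have h1 : (b : ℝ) ^ i' = (b : ℝ) ^ (i' - i) * (b : ℝ) ^ i := by
    rw [← pow_add]
    congr 1
    omega
  have h0 : (b : ℝ) ≠ 0 := by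
    have : (1 : ℝ) ≤ b := by exact_mod_cast hb
    linarith
  push_cast
  rw [add_div]
  congr 1
  rw [h1]
  field_simp

theorem HB_grid {b : ℕ} {C : ℝ} (hb : 1 ≤ b)
    (h : ∀ (j : ℕ) (t : UnitAddCircle), ∑ a ∈ range (b ^ j), ev b j (t - pt b j a) ≤ C)
    (i i' : ℕ) (c : UnitAddCircle) :
    ∑ a ∈ range (b ^ i'), ev b i (c - pt b i' a) ≤ C * (b : ℝ) ^ (i' - i) := by
  rcases le_or_gt i i' with hi | hi
  · have h1 : b ^ i' = b ^ (i' - i) * b ^ i := by
      rw [← pow_add]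
      congr 1
      omega
    rw [h1, HB_range _ _ (pow_pos (by omega) _)]
    have h2 : ∀ a₀ ∈ range (b ^ (i' - i)),
        ∑ a₁ ∈ range (b ^ i), ev b i (c - pt b i' (a₀ + b ^ (i' - i) * a₁)) ≤ C := by
      intro a₀ _
      have h3 := h i (c - pt b i' a₀)
      refine le_trans (le_of_eq ?_) h3
      refine Finset.sum_congr rfl fun a₁ _ => ?_
      rw [HB_pt hb hi, sub_sub]
    refine (Finset.sum_le_sum h2).trans (le_of_eq ?_)
    rw [Finset.sum_const, card_range, nsmul_eq_mul]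
    push_cast
    ring
  · have h1 : i' - i = 0 := by omega
    rw [h1, pow_zero, mul_one]
    exact (Finset.sum_le_sum fun a _ => HB_ev_anti hb hi.le _).trans (h i' c)

theorem HB_row {b : ℕ} {C C₁ : ℝ} (hb : 1 ≤ b) (hC : 0 < C)
    (hk1 : ∀ (i i' : ℕ) (t : UnitAddCircle), ‖hk b i i' t‖ ≤ C * ((b : ℝ) ^ (i' - i))⁻¹ * ev b i t)
    (h : ∀ (j : ℕ) (t : UnitAddCircle), ∑ a ∈ range (b ^ j), ev b j (t - pt b j a) ≤ C₁)
    (i i' : ℕ) (c : UnitAddCircle) :
    ∑ a ∈ range (b ^ i'), ‖hk b i i' (c - pt b i' a)‖ ≤ C * C₁ := by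
  have h0 : (0 : ℝ) < (b : ℝ) ^ (i' - i) := pow_pos (by exact_mod_cast hb) _
  calc ∑ a ∈ range (b ^ i'), ‖hk b i i' (c - pt b i' a)‖
      ≤ ∑ a ∈ range (b ^ i'), C * ((b : ℝ) ^ (i' - i))⁻¹ * ev b i (c - pt b i' a) :=
        Finset.sum_le_sum fun a _ => hk1 _ _ _
    _ = C * ((b : ℝ) ^ (i' - i))⁻¹ * ∑ a ∈ range (b ^ i'), ev b i (c - pt b i' a) := by
        rw [Finset.mul_sum]
    _ ≤ C * ((b : ℝ) ^ (i' - i))⁻¹ * (C₁ * (b : ℝ) ^ (i' - i)) :=
        mul_le_mul_of_nonneg_left (HB_grid hb h i i' c) (by positivity)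
    _ = C * C₁ := by field_simp

theorem HB_col {b : ℕ} {C C₁ : ℝ} (hC : 0 < C)
    (hk1 : ∀ (i i' : ℕ) (t : UnitAddCircle), ‖hk b i i' t‖ ≤ C * ((b : ℝ) ^ (i' - i))⁻¹ * ev b i t)
    (h : ∀ (j : ℕ) (t : UnitAddCircle), ∑ a ∈ range (b ^ j), ev b j (t - pt b j a) ≤ C₁)
    (i i' : ℕ) (c : UnitAddCircle) :
    ∑ a ∈ range (b ^ i), ‖hk b i i' (pt b i a - c)‖ ≤ C * C₁ * ((b : ℝ) ^ (i' - i))⁻¹ := by
  calc ∑ a ∈ range (b ^ i), ‖hk b i i' (pt b i a - c)‖
      ≤ ∑ a ∈ range (b ^ i), C * ((b : ℝ) ^ (i' - i))⁻¹ * ev b i (pt b i a - c) :=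
        Finset.sum_le_sum fun a _ => hk1 _ _ _
    _ = C * ((b : ℝ) ^ (i' - i))⁻¹ * ∑ a ∈ range (b ^ i), ev b i (c - pt b i a) := by
        rw [Finset.mul_sum]
        refine Finset.sum_congr rfl fun a _ => ?_
        rw [← HB_ev_neg, neg_sub]
    _ ≤ C * ((b : ℝ) ^ (i' - i))⁻¹ * C₁ :=
        mul_le_mul_of_nonneg_left (h i c) (by positivity)
    _ = C * C₁ * ((b : ℝ) ^ (i' - i))⁻¹ := by ring

theorem HB_le {d : ℕ} (s s' : Fin d → ℕ) (h : ∀ i, s i ≤ s' i + 2) (i : Fin d) :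
    s' i + 2 - s i < (∑ j, s' j - ∑ j, s j) + 2 * d + 1 := by
  have h1 : s' i + 2 - s i ≤ ∑ j, (s' j + 2 - s j) :=
    Finset.single_le_sum (f := fun j => s' j + 2 - s j) (fun _ _ => Nat.zero_le _) (mem_univ i)
  have h2 : ∑ j, (s' j + 2 - s j) + ∑ j, s j = ∑ j, s' j + 2 * d := by
    rw [← Finset.sum_add_distrib]
    have : ∀ j ∈ (univ : Finset (Fin d)), s' j + 2 - s j + s j = s' j + 2 := fun j _ => by
      have := h j
      omega
    rw [Finset.sum_congr rfl this, Finset.sum_add_distrib, Finset.sum_const, card_univ,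
      Fintype.card_fin, smul_eq_mul, mul_comm]
  omega

theorem HB_cnt1 {d : ℕ} (l' : ℕ) (s : Fin d → ℕ) :
    ((shp d l').filter (fun s' => ∀ i, s i ≤ s' i + 2)).card
      ≤ ((l' - ∑ j, s j) + 2 * d + 1) ^ d := by
  have h : ((shp d l').filter (fun s' => ∀ i, s i ≤ s' i + 2)).card
      ≤ (Fintype.piFinset fun _ : Fin d => range ((l' - ∑ j, s j) + 2 * d + 1)).card := by
    refine Finset.card_le_card_of_injOn (fun s' i => s' i + 2 - s i) ?_ ?_
    · intro s' hs'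
      rw [Finset.mem_coe, mem_filter, mem_shp] at hs'
      rw [Finset.mem_coe, Fintype.mem_piFinset]
      intro i
      rw [mem_range, ← hs'.1]
      exact HB_le s s' hs'.2 i
    · intro s' hs' s'' hs'' he
      rw [Finset.mem_coe, mem_filter, mem_shp] at hs' hs''
      funext i
      have h1 := congrFun he i
      have h2 := hs'.2 i
      have h3 := hs''.2 i
      simp only at h1
      omega
  refine h.trans (le_of_eq ?_)
  simp

theorem HB_cnt2 {d : ℕ} (l : ℕ) (s' : Fin d → ℕ) :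
    ((shp d l).filter (fun s => ∀ i, s i ≤ s' i + 2)).card
      ≤ ((∑ j, s' j - l) + 2 * d + 1) ^ d := by
  have h : ((shp d l).filter (fun s => ∀ i, s i ≤ s' i + 2)).card
      ≤ (Fintype.piFinset fun _ : Fin d => range ((∑ j, s' j - l) + 2 * d + 1)).card := by
    refine Finset.card_le_card_of_injOn (fun s i => s' i + 2 - s i) ?_ ?_
    · intro s hs
      rw [Finset.mem_coe, mem_filter, mem_shp] at hs
      rw [Finset.mem_coe, Fintype.mem_piFinset]
      intro i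
      rw [mem_range, ← hs.1]
      exact HB_le s s' hs.2 i
    · intro s hs s'' hs'' he
      rw [Finset.mem_coe, mem_filter, mem_shp] at hs hs''
      funext i
      have h1 := congrFun he i
      have h2 := hs.2 i
      have h3 := hs''.2 i
      simp only at h1
      omega
  refine h.trans (le_of_eq ?_)
  simp

theorem HB_sub {d : ℕ} (s s' : Fin d → ℕ) : ∑ i, s' i - ∑ i, s i ≤ ∑ i, (s' i - s i) := by
  have h : ∑ i, s' i ≤ ∑ i, (s' i - s i) + ∑ i, s i := by
    rw [← Finset.sum_add_distrib]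
    exact Finset.sum_le_sum fun i _ => by omega
  omega

theorem HB_num (d D : ℕ) (K : ℝ) (hK : 0 ≤ K) :
    (((D + 2 * d + 1) ^ d : ℕ) : ℝ) * K ^ d ≤ ((2 * d + 1) * K) ^ d * (1 + (D : ℝ)) ^ d := by
  push_cast
  rw [← mul_pow, ← mul_pow]
  apply pow_le_pow_left₀
  · positivity
  · have h1 : (D : ℝ) + 2 * d + 1 ≤ (2 * d + 1) * (1 + (D : ℝ)) := by
      have : (0 : ℝ) ≤ d * D := by positivity
      nlinarith
    calc ((D : ℝ) + 2 * d + 1) * K ≤ (2 * d + 1) * (1 + (D : ℝ)) * K :=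
          mul_le_mul_of_nonneg_right h1 hK
      _ = (2 * d + 1) * K * (1 + (D : ℝ)) := by ring

theorem HB_rpow (v K b : ℝ) (D : ℕ) (hv : 1 ≤ v) (hK : 0 < K) (hb : 0 < b) :
    K ^ (1 - 1 / v) * (K * (b ^ D)⁻¹) ^ (1 / v) = K * b ^ (-((D : ℝ) / v)) := by
  have h1 : (0 : ℝ) ≤ (b ^ D)⁻¹ := by positivity
  rw [Real.mul_rpow hK.le h1, ← mul_assoc, ← Real.rpow_add hK, sub_add_cancel, Real.rpow_one]
  congr 1
  rw [← Real.rpow_natCast, ← Real.rpow_neg hb.le, ← Real.rpow_mul hb.le]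
  congr 1
  ring

/-- HB: norms of the level blocks of the exact coefficients. -/
theorem st_HB (h1 : ST_HKB) (h2 : ST_SCH) (h3 : ST_EVI) : ST_HB := by
  intro b d v hb hd hv
  obtain ⟨C, hC, hkb⟩ := h1 b hb
  obtain ⟨C₁, hC₁, -, hev⟩ := h3 b 1 (by omega)
  have hev1 := HB_ev1 hev
  have hk1 : ∀ (i i' : ℕ) (t : UnitAddCircle),
      ‖hk b i i' t‖ ≤ C * ((b : ℝ) ^ (i' - i))⁻¹ * ev b i t := fun i i' t => (hkb i i' t).1
  have hk0 : ∀ (i i' : ℕ) (t : UnitAddCircle), i' + 3 ≤ i → hk b i i' t = 0 :=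
    fun i i' t => (hkb i i' t).2
  have hb1 : 1 ≤ b := by omega
  have hbp : (0 : ℝ) < b := by exact_mod_cast hb1
  set K : ℝ := C * C₁ with hKdef
  have hK : 0 < K := mul_pos hC hC₁
  have hzero : ∀ B B' : Bo d, ¬ (∀ i, B.1 i ≤ B'.1 i + 2) → Hm b B B' = 0 := by
    intro B B' h
    push Not at h
    obtain ⟨i, hi⟩ := h
    unfold Hm
    exact Finset.prod_eq_zero (mem_univ i) (hk0 _ _ _ (by omega))
  refine ⟨((2 * d + 1) * K) ^ d, by positivity, fun l l' z => ⟨?_, ?_⟩⟩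
  · set D : ℕ := l' - l with hD
    have hrow : ∀ B ∈ lev b d l, ∑ B' ∈ lev b d l', ‖Hm b B B'‖
        ≤ ((2 * d + 1) * K) ^ d * (1 + (D : ℝ)) ^ d := by
      intro B hB
      have hBs := (mem_lev.1 hB).1
      rw [sum_lev]
      have e1 : ∀ s' ∈ shp d l', ∑ a' ∈ gr b s', ‖Hm b B (s', a')‖
          ≤ if (∀ i, B.1 i ≤ s' i + 2) then K ^ d else 0 := by
        intro s' _
        split_ifs with hc
        · unfold Hm gr
          simp only [norm_prod]
          rw [← Finset.prod_univ_sum (fun i => range (b ^ s' i)) (fun i a => ‖hk b (B.1 i) (s' i)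
            (pt b (B.1 i) (B.2 i) - pt b (s' i) a)‖)]
          calc ∏ i, ∑ a ∈ range (b ^ s' i), ‖hk b (B.1 i) (s' i)
                (pt b (B.1 i) (B.2 i) - pt b (s' i) a)‖ ≤ ∏ _i : Fin d, K :=
                Finset.prod_le_prod (fun i _ => Finset.sum_nonneg fun _ _ => norm_nonneg _)
                  fun i _ => HB_row hb1 hC hk1 hev1 _ _ _
            _ = K ^ d := by
                rw [Finset.prod_const, card_univ, Fintype.card_fin]
        · refine le_of_eq (Finset.sum_eq_zero fun a _ => ?_)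
          rw [hzero B (s', a) hc, norm_zero]
      refine (Finset.sum_le_sum e1).trans ?_
      rw [← Finset.sum_filter, Finset.sum_const, nsmul_eq_mul]
      refine le_trans (mul_le_mul_of_nonneg_right ?_ (pow_nonneg hK.le d)) (HB_num d D K hK.le)
      have h4 := HB_cnt1 l' B.1
      rw [hBs] at h4
      exact_mod_cast h4
    have hcol : ∀ B' ∈ lev b d l', ∑ B ∈ lev b d l, ‖Hm b B B'‖
        ≤ ((2 * d + 1) * K) ^ d * (1 + (D : ℝ)) ^ d * ((b : ℝ) ^ D)⁻¹ := by
      intro B' hB'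
      have hBs := (mem_lev.1 hB').1
      rw [sum_lev]
      have e1 : ∀ s ∈ shp d l, ∑ a ∈ gr b s, ‖Hm b (s, a) B'‖
          ≤ if (∀ i, s i ≤ B'.1 i + 2) then K ^ d * ((b : ℝ) ^ D)⁻¹ else 0 := by
        intro s hs
        rw [mem_shp] at hs
        split_ifs with hc
        · unfold Hm gr
          simp only [norm_prod]
          rw [← Finset.prod_univ_sum (fun i => range (b ^ s i)) (fun i a => ‖hk b (s i) (B'.1 i)
            (pt b (s i) a - pt b (B'.1 i) (B'.2 i))‖)]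
          calc ∏ i, ∑ a ∈ range (b ^ s i), ‖hk b (s i) (B'.1 i)
                (pt b (s i) a - pt b (B'.1 i) (B'.2 i))‖
                ≤ ∏ i : Fin d, K * ((b : ℝ) ^ (B'.1 i - s i))⁻¹ :=
                Finset.prod_le_prod (fun i _ => Finset.sum_nonneg fun _ _ => norm_nonneg _)
                  fun i _ => HB_col hC hk1 hev1 _ _ _
            _ = K ^ d * ((b : ℝ) ^ (∑ i, (B'.1 i - s i)))⁻¹ := by
                rw [Finset.prod_mul_distrib, Finset.prod_const, card_univ, Fintype.card_fin,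
                  Finset.prod_inv_distrib, Finset.prod_pow_eq_pow_sum]
            _ ≤ K ^ d * ((b : ℝ) ^ D)⁻¹ := by
                apply mul_le_mul_of_nonneg_left _ (pow_nonneg hK.le d)
                apply inv_anti₀ (pow_pos hbp _)
                apply pow_le_pow_right₀ (by exact_mod_cast hb1)
                have := HB_sub s B'.1
                rw [hBs, hs] at this
                exact this
        · refine le_of_eq (Finset.sum_eq_zero fun a _ => ?_)
          rw [hzero (s, a) B' hc, norm_zero]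
      refine (Finset.sum_le_sum e1).trans ?_
      rw [← Finset.sum_filter, Finset.sum_const, nsmul_eq_mul, ← mul_assoc]
      refine mul_le_mul_of_nonneg_right ?_ (by positivity)
      refine le_trans (mul_le_mul_of_nonneg_right ?_ (pow_nonneg hK.le d)) (HB_num d D K hK.le)
      have h4 := HB_cnt2 l B'.1
      rw [hBs] at h4
      exact_mod_cast h4
    have hKD : 0 < ((2 * d + 1) * K) ^ d * (1 + (D : ℝ)) ^ d := by positivity
    have h5 := h2 (Bo d) (Bo d) v (((2 * d + 1) * K) ^ d * (1 + (D : ℝ)) ^ d)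
      (((2 * d + 1) * K) ^ d * (1 + (D : ℝ)) ^ d * ((b : ℝ) ^ D)⁻¹) (lev b d l) (lev b d l')
      (fun B B' => Hm b B B') z hv hKD.le (by positivity) hrow hcol
    rw [HB_rpow v _ b D hv hKD hbp] at h5
    exact h5
  · intro hl B hB B' hB'
    apply hzero
    intro h
    have h4 := (mem_lev.1 hB).1
    have h5 := (mem_lev.1 hB').1
    have h6 : ∑ i, B.1 i ≤ ∑ i, (B'.1 i + 2) := Finset.sum_le_sum fun i _ => h i
    rw [Finset.sum_add_distrib, Finset.sum_const, card_univ, Fintype.card_fin, smul_eq_mul] at h6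
    omega

end Pool.Agent.Helper37.SU
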